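import Pool.Agent.Lib.MP_b041da_pr.Barrier

set_option autoImplicit false

namespace Pool.Agent.Results.MP_b041da_pr.EscapeRate

open Filter Topology Pool.Agent.Lib.MP_b041da_pr

variable {d : ℕ} {m : (Fin d → ℤ) → Equiv.Perm (Fin d × Bool)}

lemma exists_bound {g h : (Fin d → ℤ) → ℝ} (hh : ∀ x, 0 < h x) {M₀ : ℝ}
    (hev : ∀ᶠ x in cofinite, g x ≤ M₀ * h x) : ∃ M, 0 ≤ M ∧ ∀ x, g x ≤ M * h x := by
  have hfin : {x | ¬ g x ≤ M₀ * h x}.Finite := hev
  obtain ⟨M₁, hM₁⟩ := (hfin.image (fun x => g x / h x)).bddAbove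
  refine ⟨max (max M₀ M₁) 0, le_max_right _ _, fun x => ?_⟩
  by_cases hx : g x ≤ M₀ * h x
  · refine hx.trans (mul_le_mul_of_nonneg_right ?_ (hh x).le)
    exact (le_max_left _ _).trans (le_max_left _ _)
  · have h1 : g x / h x ≤ M₁ := hM₁ ⟨x, hx, rfl⟩
    rw [div_le_iff₀ (hh x)] at h1
    refine h1.trans (mul_le_mul_of_nonneg_right ?_ (hh x).le)
    exact (le_max_right _ _).trans (le_max_left _ _)

lemma main_ineq' (hd : 0 < d) (hm : ∀ x, (m x).IsCycleOn Set.univ) (e₀ : Fin d × Bool)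
    (f : (Fin d → ℤ) → ℝ) (hsup : ∀ x, x ≠ 0 → lap f x ≤ 0) (c : ℝ)
    (hf : ∀ᶠ x in cofinite, f x = c * bar x) {ε : ℝ} (hε : 0 < ε) :
    ∃ K : ℝ, ∀ n : ℕ, -K - ε * n ≤ n * lap f 0 + f 0 * escaped m (fun _ => e₀) n := by
  have hf0 : Tendsto f cofinite (𝓝 0) := by
    have := (tendsto_SS_rpow (d := d) (a := 1 / 4) (by norm_num)).const_mul c
    rw [mul_zero] at this
    exact this.congr' (hf.mono fun x hx => hx.symm)
  have hpos : ∀ x : Fin d → ℤ, 0 < SS (col e₀ x) ^ (-(1 / 8 : ℝ)) * gam (x e₀.1) := fun x =>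
    mul_pos (Real.rpow_pos_of_pos (SS_pos _) _) (gam_pos _)
  have hev : ∀ᶠ x in cofinite, ∑ e : Fin d × Bool, |f (x + vec e) - f x| ≤
      (2 * d * (|c| * 3)) * (SS (col e₀ x) ^ (-(1 / 8 : ℝ)) * gam (x e₀.1)) := by
    have h1 : ∀ᶠ x in cofinite, ∀ e : Fin d × Bool, f (x + vec e) = c * bar (x + vec e) :=
      eventually_all.2 fun e => (add_left_injective (vec e)).tendsto_cofinite.eventually hf
    filter_upwards [hf, h1] with x hx hx'
    have h2 : ∀ e : Fin d × Bool, |f (x + vec e) - f x| ≤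
        |c| * (3 * (SS (col e₀ x) ^ (-(1 / 8 : ℝ)) * gam (x e₀.1))) := by
      intro e
      rw [hx, hx' e, ← mul_sub, abs_mul]
      exact mul_le_mul_of_nonneg_left (grad_bar e₀ x e) (abs_nonneg c)
    refine (Finset.sum_le_sum fun e _ => h2 e).trans (le_of_eq ?_)
    simp; ring
  obtain ⟨M, hM0, hM⟩ := exists_bound hpos hev
  refine main_ineq hd hm e₀ f hf0 hsup (β := fun y => M * SS y ^ (-(1 / 8 : ℝ))) (γ := gam)
    (fun y => mul_nonneg hM0 (Real.rpow_nonneg (SS_pos _).le _)) (fun h => (gam_pos h).le) ?_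
    summable_gam (fun x e => ?_) hε
  · simpa using (tendsto_SS_rpow (d := d) (a := 1 / 8) (by norm_num)).const_mul M
  · rw [mul_assoc]
    refine le_trans ?_ (hM x)
    exact Finset.single_le_sum (f := fun e => |f (x + vec e) - f x|) (fun e _ => abs_nonneg _)
      (Finset.mem_univ e)

lemma lap_eq (hd : 0 < d) (f : (Fin d → ℤ) → ℝ) (x : Fin d → ℤ) :
    lap f x = (∑ e : Fin d × Bool, f (x + vec e)) / (2 * d) - f x := by
  have hdR : (0 : ℝ) < d := by exact_mod_cast hd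
  rw [lap, Finset.sum_sub_distrib]
  simp
  field_simp

lemma upper (hd : 0 < d) (hm : ∀ x, (m x).IsCycleOn Set.univ) (e₀ : Fin d × Bool)
    {ε : ℝ} (hε : 0 < ε) :
    ∃ K : ℝ, ∀ n : ℕ, (escaped m (fun _ => e₀) n : ℝ) ≤ n * (alpha d + ε) + K := by
  have hdR : (0 : ℝ) < d := by exact_mod_cast hd
  obtain ⟨R, hR⟩ := ((tendsto_alpha hd).eventually
    (gt_mem_nhds (show alpha d < alpha d + ε / 2 by linarith))).exists
  have hlap : ∀ x : Fin d → ℤ, lap (fun x => q R x - 1) x =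
      (∑ e : Fin d × Bool, q R (x + vec e)) / (2 * d) - q R x := by
    intro x
    rw [← lap_eq hd]
    simp [lap]
  obtain ⟨K, hK⟩ := main_ineq' hd hm e₀ (fun x => q R x - 1) (by
    intro x hx
    rw [hlap]
    have := q_succ_le hd R x
    simp only [q, if_neg hx] at this
    linarith) 0 (by
    filter_upwards [(q_finite hd R).compl_mem_cofinite] with x hx
    simp only [Set.mem_compl_iff, Set.mem_ofPred_eq, ne_eq, not_not] at hx
    simp [hx]) (show 0 < ε / 2 by linarith)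
  refine ⟨K, fun n => ?_⟩
  have h1 := hK n
  rw [hlap] at h1
  simp only [zero_add, q_zero] at h1
  have h2 : (n : ℝ) * ((∑ e : Fin d × Bool, q R (vec e)) / (2 * d)) ≤ n * (alpha d + ε / 2) :=
    mul_le_mul_of_nonneg_left hR.le (Nat.cast_nonneg n)
  linarith

lemma lower (hd : 3 ≤ d) (hm : ∀ x, (m x).IsCycleOn Set.univ) (e₀ : Fin d × Bool)
    {ε : ℝ} (hε : 0 < ε) :
    ∃ K : ℝ, ∀ n : ℕ, n * (alpha d - ε) - K ≤ (escaped m (fun _ => e₀) n : ℝ) := by
  have hd0 : 0 < d := by omega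
  have hdR : (0 : ℝ) < d := by exact_mod_cast hd0
  set δ := min (ε / 2) 1 with hδ
  have hδ0 : 0 < δ := lt_min (by linarith) one_pos
  have hδ1 : δ ≤ 1 := min_le_right _ _
  have hδε : δ ≤ ε / 2 := min_le_left _ _
  let c : ℝ := (bar (0 : Fin d → ℤ))⁻¹
  have hc : 0 < c := inv_pos.2 (bar_pos 0)
  let u : (Fin d → ℤ) → ℝ := fun x => 1 - (1 - δ) * qinf x
  let v : (Fin d → ℤ) → ℝ := fun x => c * bar x
  have hu : ∀ x, lap u x =
      -(1 - δ) * ((∑ e : Fin d × Bool, qinf (x + vec e)) / (2 * d) - qinf x) := by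
    intro x
    rw [← lap_eq hd0, lap, lap, ← mul_div_assoc, Finset.mul_sum]
    congr 1
    refine Finset.sum_congr rfl fun e _ => ?_
    simp only [u]; ring
  have hv : ∀ x, lap v x ≤ 0 := by
    intro x
    have : lap v x = c * lap bar x := by
      rw [lap, lap, ← mul_div_assoc, Finset.mul_sum]
      congr 1
      refine Finset.sum_congr rfl fun e _ => ?_
      simp only [v]; ring
    rw [this]
    exact mul_nonpos_of_nonneg_of_nonpos hc.le (lap_bar hd x)
  have hmono : ∀ (f g : (Fin d → ℤ) → ℝ) (x : Fin d → ℤ), (∀ y, f y ≤ g y) → f x = g x →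
      lap f x ≤ lap g x := by
    intro f g x h1 h2
    unfold lap
    rw [h2]
    gcongr with e
    exact h1 _
  have hu0 : u 0 = 1 := by simp [u, qinf_zero]
  have hv0 : v 0 = 1 := inv_mul_cancel₀ (bar_pos 0).ne'
  obtain ⟨K, hK⟩ := main_ineq' hd0 hm e₀ (fun x => min (u x) (v x)) (by
    intro x hx
    rcases le_total (u x) (v x) with h | h
    · refine (hmono _ u x (fun y => min_le_left _ _) (min_eq_left h)).trans ?_
      rw [hu, ← qinf_harm hd0 hx]; simp
    · exact (hmono _ v x (fun y => min_le_right _ _) (min_eq_right h)).trans (hv x)) c (by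
    have h1 := (tendsto_SS_rpow (d := d) (a := 1 / 4) (by norm_num)).const_mul c
    rw [mul_zero] at h1
    filter_upwards [h1.eventually (gt_mem_nhds hδ0)] with x hx
    apply min_eq_right
    have h2 := qinf_le_one hd0 x
    have h3 : (1 - δ) * qinf x ≤ (1 - δ) * 1 := mul_le_mul_of_nonneg_left h2 (by linarith)
    simp only [u, v, bar]
    linarith) (show 0 < ε / 2 by linarith)
  refine ⟨K, fun n => ?_⟩
  have h1 := hK n
  have h2 : lap (fun x => min (u x) (v x)) 0 ≤ -(1 - δ) * alpha d := by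
    refine (hmono _ u 0 (fun y => min_le_left _ _) (by simp [hu0, hv0])).trans (le_of_eq ?_)
    rw [hu, alpha_eq hd0]
    simp [qinf_zero]
  have h3 : alpha d ≤ 1 := by
    rw [alpha_eq hd0]
    exact avg_le hd0 fun e => qinf_le_one hd0 _
  simp only [hu0, hv0, min_self, one_mul] at h1
  have h4 : (n : ℝ) * lap (fun x => min (u x) (v x)) 0 ≤ n * (-alpha d + ε / 2) := by
    apply mul_le_mul_of_nonneg_left _ (Nat.cast_nonneg n)
    nlinarith
  linarith

theorem result (d : ℕ) (hd : 3 ≤ d) (m : (Fin d → ℤ) → Equiv.Perm (Fin d × Bool))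
    (hm : ∀ x, (m x).IsCycleOn Set.univ) (e₀ : Fin d × Bool) :
    Tendsto (fun n : ℕ => (escaped m (fun _ => e₀) n : ℝ) / n) atTop (𝓝 (alpha d)) := by
  rw [Metric.tendsto_atTop]
  intro ε hε
  obtain ⟨K₁, hK₁⟩ := upper (by omega) hm e₀ (show 0 < ε / 2 by linarith)
  obtain ⟨K₂, hK₂⟩ := lower hd hm e₀ (show 0 < ε / 2 by linarith)
  obtain ⟨N, hN⟩ := exists_nat_gt (max (max K₁ K₂) 0 / (ε / 2))
  refine ⟨N, fun n hn => ?_⟩
  have hnN : (N : ℝ) ≤ n := by exact_mod_cast hn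
  rw [div_lt_iff₀ (by linarith)] at hN
  have h1 : K₁ ≤ max (max K₁ K₂) 0 := (le_max_left _ _).trans (le_max_left _ _)
  have h2 : K₂ ≤ max (max K₁ K₂) 0 := (le_max_right _ _).trans (le_max_left _ _)
  have h3 : 0 ≤ max (max K₁ K₂) 0 := le_max_right _ _
  have h4 : (N : ℝ) * (ε / 2) ≤ n * (ε / 2) := by gcongr
  have hn0 : (0 : ℝ) < n := by
    by_contra hc
    have : (n : ℝ) * (ε / 2) ≤ 0 := mul_nonpos_of_nonpos_of_nonneg (not_lt.1 hc) (by linarith)
    linarith
  rw [Real.dist_eq, abs_lt]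
  constructor
  · rw [lt_sub_iff_add_lt, lt_div_iff₀ hn0]
    linarith [hK₂ n]
  · rw [sub_lt_iff_lt_add, div_lt_iff₀ hn0]
    linarith [hK₁ n]

end Pool.Agent.Results.MP_b041da_pr.EscapeRate
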